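import Pool.Agent.MP_5c28a4_al.H62S.Base

/-!
Part NIL of `SHaus`: endomorphisms of a Noetherian module with a least stable subgroup.
-/

set_option autoImplicit false

namespace Pool.Agent.MP_5c28a4_al.H89S.HausA

open Polynomial

namespace RNilA

lemma vn_pi {Γ : Type} [Group Γ] (h : VN Γ) (d : ℕ) : VN (Fin d → Γ) := by
  obtain ⟨-, H, k, h1, h2, h3⟩ := h
  refine ⟨inferInstance, ⨅ i, H.comap (Pi.evalMonoidHom (fun _ : Fin d => Γ) i), k,
    Subgroup.normal_iInf_normal fun i => h1.comap _, Subgroup.finiteIndex_iInf fun i => ⟨?_⟩,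
    fun x hx => Subgroup.mem_bot.2 (funext fun i => ?_)⟩
  · rw [Subgroup.index_comap_of_surjective H (Function.surjective_eval i)]
    exact h2.index_ne_zero
  · have key : ∀ n, (⨅ i, H.comap (Pi.evalMonoidHom (fun _ : Fin d => Γ) i)).lowerCentralSeries n
        ≤ (H.lowerCentralSeries n).comap (Pi.evalMonoidHom (fun _ : Fin d => Γ) i) := by
      intro n
      induction n with
      | zero => exact iInf_le _ i
      | succ n ih =>
        rw [Subgroup.lowerCentralSeries_succ, Subgroup.lowerCentralSeries_succ,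
          Subgroup.commutator_le]
        intro x hx y hy
        rw [Subgroup.mem_comap, map_commutatorElement]
        exact Subgroup.commutator_mem_commutator (ih hx) (Subgroup.mem_iInf.1 hy i)
    exact Subgroup.mem_bot.1 (h3 (key k hx))

variable {G H M : Type} [Group G] [AddCommGroup M] {τ : Representation ℤ G M}
  {s : H → Module.End ℤ M} {c : Module.End ℤ M} {U V M' : Submodule ℤ M}

lemma com_tau (hc : Com τ s c) (g : G) (x : M) : c (τ g x) = τ g (c x) :=
  LinearMap.congr_fun (hc.1 g) x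

lemma com_s (hc : Com τ s c) (σ : H) (x : M) : c (s σ x) = s σ (c x) :=
  LinearMap.congr_fun (hc.2 σ) x

lemma stab_map (hc : Com τ s c) (hU : Stab τ s U) : Stab τ s (U.map c) :=
  ⟨by rintro g _ ⟨x, hx, rfl⟩; exact ⟨_, hU.1 g x hx, com_tau hc g x⟩,
    by rintro g _ ⟨x, hx, rfl⟩; exact ⟨_, hU.2 g x hx, com_s hc g x⟩⟩

lemma stab_comap (hc : Com τ s c) (hU : Stab τ s U) : Stab τ s (U.comap c) :=
  ⟨fun g x hx => by rw [Submodule.mem_comap, com_tau hc]; exact hU.1 g _ hx,
    fun g x hx => by rw [Submodule.mem_comap, com_s hc]; exact hU.2 g _ hx⟩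

lemma stab_inf (hU : Stab τ s U) (hV : Stab τ s V) : Stab τ s (U ⊓ V) :=
  ⟨fun g x hx => ⟨hU.1 g x hx.1, hV.1 g x hx.2⟩, fun g x hx => ⟨hU.2 g x hx.1, hV.2 g x hx.2⟩⟩

lemma stab_bot : Stab τ s (⊥ : Submodule ℤ M) :=
  ⟨fun g x hx => by rw [(Submodule.mem_bot ℤ).1 hx, map_zero]; exact Submodule.zero_mem _,
    fun g x hx => by rw [(Submodule.mem_bot ℤ).1 hx, map_zero]; exact Submodule.zero_mem _⟩

lemma stab_top : Stab τ s (⊤ : Submodule ℤ M) := ⟨fun _ _ _ => trivial, fun _ _ _ => trivial⟩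

lemma com_aeval (hc : Com τ s c) (h : ℤ[X]) : Com τ s (aeval c h) := by
  have key : ∀ e : Module.End ℤ M, c * e = e * c → aeval c h * e = e * aeval c h := by
    intro e he
    have he' : Commute c e := he
    induction h using Polynomial.induction_on' with
    | add p q hp hq => rw [map_add, add_mul, mul_add, hp, hq]
    | monomial n a =>
      rw [aeval_monomial]
      exact (Commute.mul_left (Algebra.commutes a e) (he'.pow_left n)).eq
  exact ⟨fun g => key _ (hc.1 g), fun σ => key _ (hc.2 σ)⟩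

lemma com_pow (hc : Com τ s c) (k : ℕ) : Com τ s (c ^ k) := by
  simpa using com_aeval hc (X ^ k)

lemma com_int (a : ℤ) : Com τ s (a : Module.End ℤ M) :=
  ⟨fun _ => (Int.cast_commute a _).eq, fun _ => (Int.cast_commute a _).eq⟩

/-- `M'` is the least stable subgroup that is not zero -/
structure Least (τ : Representation ℤ G M) (s : H → Module.End ℤ M) (M' : Submodule ℤ M) :
    Prop where
  stab : Stab τ s M'
  ne : M' ≠ ⊥
  le : ∀ U, Stab τ s U → U ≠ ⊥ → M' ≤ U

lemma Least.surj (h : Least τ s M') (hc : Com τ s c) {x : M} (hx : x ∈ M') (h0 : c x ≠ 0) :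
    ∀ y ∈ M', ∃ z ∈ M', c z = y := fun _ hy =>
  h.le _ (stab_map hc h.stab) ((Submodule.ne_bot_iff _).2 ⟨c x, ⟨x, hx, rfl⟩, h0⟩) hy

lemma Least.kill (h : Least τ s M') (hc : Com τ s c) {x : M} (hx : x ≠ 0) (h0 : c x = 0) :
    ∀ y ∈ M', c y = 0 := fun _ hy =>
  h.le _ (stab_comap hc stab_bot) ((Submodule.ne_bot_iff _).2 ⟨x, h0, hx⟩) hy

lemma Least.maps (h : Least τ s M') (hc : Com τ s c) : ∀ y ∈ M', c y ∈ M' := by
  intro y hy
  by_cases h0 : c y = 0
  · rw [h0]; exact M'.zero_mem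
  · obtain ⟨z, hz, h1⟩ := h.surj hc hy h0 y hy
    refine h.le _ (stab_comap hc h.stab) ((Submodule.ne_bot_iff _).2 ⟨z, ?_, ?_⟩) hy
    · rw [Submodule.mem_comap, h1]; exact hy
    · rintro rfl
      exact h0 (by rw [← h1, map_zero, map_zero])

/-- an endomorphism that kills the least stable subgroup is nilpotent -/
lemma Least.nil (h : Least τ s M')
    (acc : ∀ c : ℕ → Submodule ℤ M, Monotone c → (∀ n, Stab τ s (c n)) →
      ∃ n, ∀ k, n ≤ k → c k = c n) (hc : Com τ s c) (h0 : ∀ y ∈ M', c y = 0) : ∃ k, c ^ k = 0 := by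
  obtain ⟨n, hn⟩ := acc (fun n => (⊥ : Submodule ℤ M).comap (c ^ n))
    (monotone_nat_of_le_succ fun n x hx => by
      have hx' : (c ^ n) x = 0 := hx
      change (c ^ (n + 1)) x = 0
      rw [pow_succ', Module.End.mul_apply, hx', map_zero])
    fun n => stab_comap (com_pow hc n) stab_bot
  refine ⟨n, LinearMap.ext fun x => ?_⟩
  by_contra hx
  obtain ⟨y, hy, hy0⟩ := (Submodule.ne_bot_iff _).1 h.ne
  obtain ⟨z, -, rfl⟩ := h.le _ (stab_map (com_pow hc n) stab_top)
    ((Submodule.ne_bot_iff _).2 ⟨_, ⟨x, trivial, rfl⟩, hx⟩) hy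
  have h1 : z ∈ (⊥ : Submodule ℤ M).comap (c ^ (n + 1)) := by
    change (c ^ (n + 1)) z = 0
    rw [pow_succ', Module.End.mul_apply]
    exact h0 _ hy
  rw [hn (n + 1) (Nat.le_succ n)] at h1
  exact hy0 h1

/-- the lemma of Hall for the least stable subgroup -/
lemma Least.hall (hH : SHall) (hG : Group.FG G) (hV : VN G) (h : Least τ s M') (T : Finset M)
    (hT : orb τ T = M') {S R : Type} [CommRing S] [CommRing R] [IsDomain R]
    [IsPrincipalIdealRing R] (π : S →+* R) (hπ : Function.Surjective π)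
    (φ : S →+* Module.End ℤ M) (hφ : ∀ a, Com τ s (φ a))
    (hker : ∀ a, π a = 0 → ∀ x ∈ M', φ a x = 0)
    (hpr : ∀ f : R, f ≠ 0 → ∃ q, Prime q ∧ ¬ q ∣ f) :
    ∃ a, π a ≠ 0 ∧ ∀ x ∈ M', φ a x = 0 := by
  classical
  let φ' : S →+* Module.End ℤ M' :=
    { toFun := fun a => (φ a).restrict (h.maps (hφ a))
      map_one' := LinearMap.ext fun x => Subtype.ext (by simp)
      map_mul' := fun a b => LinearMap.ext fun x => Subtype.ext (by simp)
      map_zero' := LinearMap.ext fun x => Subtype.ext (by simp)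
      map_add' := fun a b => LinearMap.ext fun x => Subtype.ext (by simp) }
  let ψ : R →+* Module.End ℤ M' := π.liftOfSurjective hπ
    ⟨φ', fun a ha => LinearMap.ext fun x => Subtype.ext (hker a ha x x.2)⟩
  let : Module R M' := Module.compHom M' ψ
  have hs : ∀ (a : S) (x : M'), ((π a • x : M') : M) = φ a x := fun a x => by
    change ((ψ (π a) x : M') : M) = _
    rw [RingHom.liftOfSurjective_comp_apply]
    rfl
  let ρ : Representation R G M' :=
    { toFun := fun g =>
        { toFun := fun x => ⟨τ g x, h.stab.1 g x x.2⟩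
          map_add' := fun x y => Subtype.ext (by simp)
          map_smul' := fun r x => Subtype.ext (by
            obtain ⟨a, rfl⟩ := hπ r
            refine Eq.trans ?_ (hs a _).symm
            change τ g ((π a • x : M') : M) = φ a (τ g x)
            rw [hs, com_tau (hφ a)]) }
      map_one' := LinearMap.ext fun x => Subtype.ext (by simp)
      map_mul' := fun g g' => LinearMap.ext fun x => Subtype.ext (by simp) }
  have hT' : ∀ t ∈ T, t ∈ M' := fun t ht =>
    hT ▸ Submodule.subset_span ⟨1, t, ht, by simp⟩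
  obtain ⟨f, hf, hf'⟩ := hH G hG hV R M' ρ (T.subtype (· ∈ M')) (by
    rw [eq_top_iff]
    rintro ⟨x, hx⟩ -
    have hx' : x ∈ orb τ T := hT ▸ hx
    have key : ∀ hx : x ∈ M', (⟨x, hx⟩ : M') ∈
        Submodule.span R {x | ∃ g, ∃ t ∈ T.subtype (· ∈ M'), x = ρ g t} := by
      clear hx
      induction hx' using Submodule.span_induction with
      | mem x hx =>
        obtain ⟨g, t, ht, rfl⟩ := hx
        exact fun _ => Submodule.subset_span ⟨g, ⟨t, hT' t ht⟩, Finset.mem_subtype.2 ht, rfl⟩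
      | zero => exact fun _ => Submodule.zero_mem _
      | add x y hx hy ihx ihy =>
        exact fun _ => Submodule.add_mem _ (ihx (hT ▸ hx)) (ihy (hT ▸ hy))
      | smul a x hx ih => exact fun _ => zsmul_mem (ih (hT ▸ hx)) a
    exact key hx)
  obtain ⟨q, hq, hqf⟩ := hpr f hf
  obtain ⟨a, rfl⟩ := hπ q
  by_cases h0 : ∀ x ∈ M', φ a x = 0
  · exact ⟨a, hq.ne_zero, h0⟩
  push Not at h0
  obtain ⟨x, hx, h0⟩ := h0
  obtain ⟨y, hy, hy0⟩ := (Submodule.ne_bot_iff _).1 h.ne
  obtain ⟨b, hb, hb'⟩ := hf' _ hq hqf (fun z => by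
    obtain ⟨w, hw, h1⟩ := h.surj (hφ a) hx h0 z z.2
    exact ⟨⟨w, hw⟩, Subtype.ext (by rw [hs, h1])⟩) ⟨y, hy⟩
  obtain ⟨b, rfl⟩ := hπ b
  exact ⟨b, hb, h.kill (hφ b) hy0 (by simpa [hs] using congrArg Subtype.val hb')⟩

/-- a prime kills the least stable subgroup -/
lemma Least.prime (hH : SHall) (hG : Group.FG G) (hV : VN G) (h : Least τ s M') (T : Finset M)
    (hT : orb τ T = M') : ∃ p : ℕ, p.Prime ∧ ∀ x ∈ M', (p : ℤ) • x = 0 := by
  obtain ⟨a, ha, h1⟩ := h.hall hH hG hV T hT (RingHom.id ℤ) Function.surjective_id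
    (Int.castRingHom _) com_int (fun a ha x _ => by
      have : a = 0 := ha
      simp [this]) fun f hf => by
    obtain ⟨q, h1, h2⟩ := Nat.exists_infinite_primes (f.natAbs + 1)
    refine ⟨q, Nat.prime_iff_prime_int.1 h2, fun h3 => ?_⟩
    have := Nat.le_of_dvd (Int.natAbs_pos.2 hf) (Int.natCast_dvd.1 h3)
    omega
  obtain ⟨y, hy, hy0⟩ := (Submodule.ne_bot_iff _).1 h.ne
  have key : ∀ n : ℕ, n ≠ 0 → (n : ℤ) • y = 0 → ∃ p : ℕ, p.Prime ∧ ∀ x ∈ M', (p : ℤ) • x = 0 := by
    intro n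
    induction n using Nat.strong_induction_on with
    | _ n ih =>
      intro hn h2
      have hn1 : n ≠ 1 := by
        rintro rfl
        exact hy0 (by simpa using h2)
      obtain ⟨p, hp, m, rfl⟩ := Nat.exists_prime_and_dvd hn1
      have hm : m ≠ 0 := right_ne_zero_of_mul hn
      by_cases h3 : (m : ℤ) • y = 0
      · exact ih m (lt_mul_of_one_lt_left (Nat.pos_of_ne_zero hm) hp.one_lt) hm h3
      · refine ⟨p, hp, fun x hx => ?_⟩
        have h4 := h.kill (com_int (p : ℤ)) h3 (by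
          rw [Module.End.intCast_apply, smul_smul]
          exact_mod_cast h2) x hx
        rwa [Module.End.intCast_apply] at h4
  refine key a.natAbs (Int.natAbs_ne_zero.2 ha) ?_
  have h2 : a • y = 0 := by simpa using h1 y hy
  rcases Int.natAbs_eq a with h3 | h3
  · rwa [← h3]
  · rw [h3, neg_smul, neg_eq_zero] at h2
    exact h2

/-- a monic polynomial kills the least stable subgroup -/
lemma Least.monic (hH : SHall) (hG : Group.FG G) (hV : VN G) (h : Least τ s M') (T : Finset M)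
    (hT : orb τ T = M') (hc : Com τ s c) : ∃ q : ℤ[X], q.Monic ∧ ∀ x ∈ M', aeval c q x = 0 := by
  obtain ⟨p, hp, h1⟩ := h.prime hH hG hV T hT
  have : Fact p.Prime := ⟨hp⟩
  have hs : Function.Surjective (mapRingHom (Int.castRingHom (ZMod p))) :=
    map_surjective _ (ZMod.ringHom_surjective _)
  have hker : ∀ a : ℤ[X], mapRingHom (Int.castRingHom (ZMod p)) a = 0 →
      ∀ x ∈ M', aeval c a x = 0 := by
    intro a ha x hx
    obtain ⟨b, rfl⟩ : C (p : ℤ) ∣ a := (C_dvd_iff_dvd_coeff _ _).2 fun i => by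
      have h2 := congrArg (fun r => coeff r i) ha
      simp only [coe_mapRingHom, coeff_map, coeff_zero, eq_intCast] at h2
      exact (ZMod.intCast_zmod_eq_zero_iff_dvd _ _).1 h2
    rw [mul_comm, map_mul, Module.End.mul_apply, aeval_C, Module.algebraMap_end_apply, h1 x hx,
      map_zero]
  obtain ⟨a, ha, h2⟩ := h.hall hH hG hV T hT _ hs (aeval c : ℤ[X] →ₐ[ℤ] _).toRingHom
    (com_aeval hc) hker fun f hf => by
    obtain ⟨q, h2, h3⟩ := exists_irreducible_of_natDegree_pos (f := X * f + 1) (by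
      rw [← C_1, natDegree_add_C, natDegree_X_mul hf]
      omega)
    refine ⟨q, h2.prime, fun h4 => h2.not_isUnit (isUnit_of_dvd_one ?_)⟩
    exact (dvd_add_right (h4.mul_left X)).1 h3
  obtain ⟨q, hq, -, hm⟩ := lifts_and_natDegree_eq_and_monic (f := Int.castRingHom (ZMod p))
    ((mem_lifts _).2 (hs _)) (monic_mul_leadingCoeff_inv ha)
  obtain ⟨u, hu⟩ := hs (C (leadingCoeff (mapRingHom (Int.castRingHom (ZMod p)) a))⁻¹)
  refine ⟨q, hm, fun x hx => ?_⟩
  have h3 := hker (q - u * a) (by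
    rw [map_sub, map_mul, hu, mul_comm, ← hq, coe_mapRingHom, sub_self]) x hx
  have h4 : aeval c a x = 0 := h2 x hx
  rwa [map_sub, map_mul, LinearMap.sub_apply, Module.End.mul_apply, h4, map_zero, sub_zero] at h3

end RNilA

open RNilA in
theorem rNil : SHall → RNil := by
  intro hH Γ _ hG hV d M _ τ s acc M' h1 h2 h3 ⟨T, hT⟩
  have h : Least τ s M' := ⟨h1, h2, h3⟩
  have hG' : Group.FG (Fin d → Γ) := inferInstance
  have hV' := vn_pi hV d
  refine ⟨fun c hc => ?_, ?_⟩
  · obtain ⟨q, hq, h4⟩ := h.monic hH hG' hV' T hT hc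
    obtain ⟨k, hk⟩ := h.nil acc (com_aeval hc q) h4
    exact ⟨q ^ k, hq.pow k, by rw [← aeval_def, map_pow, hk]⟩
  · obtain ⟨p, hp, h4⟩ := h.prime hH hG' hV' T hT
    obtain ⟨k, hk⟩ := h.nil acc (com_int (p : ℤ)) fun y hy => by
      rw [Module.End.intCast_apply]; exact h4 y hy
    refine ⟨p ^ k, pow_pos hp.pos k, fun x => ?_⟩
    have h5 := LinearMap.congr_fun hk x
    rw [← Int.cast_pow, Module.End.intCast_apply, LinearMap.zero_apply] at h5
    rw [← natCast_zsmul]
    exact_mod_cast h5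

end Pool.Agent.MP_5c28a4_al.H89S.HausA
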