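import Pool.Agent.MP_5c28a4_al.H8S.Spec

/-!
Section S5: the outer induction along a tower.
-/

set_option autoImplicit false

namespace Pool.Agent.MP_5c28a4_al.H89S.StA

open scoped commutatorElement

namespace StOut

variable {G : Type} [Group G]

/-- the action by conjugation on an abelian normal subgroup -/
lemma conjRep (B : Subgroup G) [hB : B.Normal] (hc : Cm B B) :
    ∃ (A : Type) (_ : AddCommGroup A) (ρ : Representation ℤ G A) (f : G → A), AddOn B f ∧
      (∀ a, ∃ x ∈ B, f x = a) ∧ (∀ g, ∀ x ∈ B, f (g * x * g⁻¹) = ρ g (f x)) ∧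
      ∀ x ∈ B, f x = 0 → x = 1 := by
  classical
  let : CommGroup B :=
    { (inferInstance : Group B) with mul_comm := fun a b => Subtype.ext (hc a a.2 b b.2) }
  let r : G → Additive B →+ Additive B := fun g =>
    { toFun := fun a => Additive.ofMul ⟨g * (a.toMul : B) * g⁻¹, hB.conj_mem _ a.toMul.2 g⟩
      map_zero' := congrArg Additive.ofMul (Subtype.ext (by simp))
      map_add' := fun a b => congrArg Additive.ofMul (Subtype.ext (by
        change g * ((a.toMul : B) * (b.toMul : B)) * g⁻¹ =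
          g * (a.toMul : B) * g⁻¹ * (g * (b.toMul : B) * g⁻¹)
        group)) }
  let ρ : Representation ℤ G (Additive B) :=
    { toFun := fun g => (r g).toIntLinearMap
      map_one' := LinearMap.ext fun a => congrArg Additive.ofMul (Subtype.ext (by
        change 1 * (a.toMul : B).1 * 1⁻¹ = (a.toMul : B).1
        group))
      map_mul' := fun g g' => LinearMap.ext fun a => congrArg Additive.ofMul (Subtype.ext (by
        change g * g' * (a.toMul : B).1 * (g * g')⁻¹ = g * (g' * (a.toMul : B).1 * g'⁻¹) * g⁻¹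
        group)) }
  refine ⟨Additive B, inferInstance, ρ, fun x => if h : x ∈ B then Additive.ofMul ⟨x, h⟩ else 0,
    fun x hx y hy => ?_, fun a => ⟨(a.toMul : B), a.toMul.2, ?_⟩, fun g x hx => ?_,
    fun x hx h => ?_⟩
  · simp only [dif_pos hx, dif_pos hy, dif_pos (B.mul_mem hx hy)]
    rfl
  · simp only [dif_pos a.toMul.2]
    rfl
  · simp only [dif_pos hx, dif_pos (hB.conj_mem x hx g)]
    rfl
  · simp only [dif_pos hx] at h
    exact congrArg Subtype.val (congrArg Additive.toMul h)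

section Add

variable {A : Type} [AddCommGroup A] {B : Subgroup G} {f : G → A}

lemma add_one (h : AddOn B f) : f 1 = 0 := by
  simpa using h 1 B.one_mem 1 B.one_mem

lemma add_inv (h : AddOn B f) {x : G} (hx : x ∈ B) : f x⁻¹ = -f x := by
  have := h x hx x⁻¹ (B.inv_mem hx)
  rw [mul_inv_cancel, add_one h] at this
  exact (neg_eq_of_add_eq_zero_right this.symm).symm

lemma add_pow (h : AddOn B f) {x : G} (hx : x ∈ B) (n : ℕ) : f (x ^ n) = (n : ℤ) • f x := by
  induction n with
  | zero => simp [add_one h]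
  | succ n ih => rw [pow_succ, h _ (B.pow_mem hx n) x hx, ih]; push_cast; rw [add_smul, one_smul]

/-- a nilpotent action on the abelian normal subgroup kills the lower central series -/
lemma lcs_bot [hB : B.Normal] {ρ : Representation ℤ G A} (h : AddOn B f)
    (he : ∀ g, ∀ x ∈ B, f (g * x * g⁻¹) = ρ g (f x)) (hi : ∀ x ∈ B, f x = 0 → x = 1)
    (J : Subgroup G) (i : ℕ) : ∀ k : ℕ,
      (∀ x ∈ J.lowerCentralSeries k, x ∈ B ∧ f x ∈ up ρ J i) →
      J.lowerCentralSeries (k + i) = ⊥ := by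
  induction i with
  | zero =>
    intro k hk
    exact eq_bot_iff.2 fun x hx => Subgroup.mem_bot.2
      (hi x (hk x hx).1 (mem_up_zero.1 (hk x hx).2))
  | succ i ih =>
    intro k hk
    rw [show k + (i + 1) = k + 1 + i by omega]
    let W : Subgroup G :=
      { carrier := {x | x ∈ B ∧ f x ∈ up ρ J i}
        one_mem' := ⟨B.one_mem, by rw [add_one h]; exact Submodule.zero_mem _⟩
        mul_mem' := fun {a b} ha hb => ⟨B.mul_mem ha.1 hb.1, by
          rw [h a ha.1 b hb.1]; exact Submodule.add_mem _ ha.2 hb.2⟩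
        inv_mem' := fun {a} ha => ⟨B.inv_mem ha.1, by
          rw [add_inv h ha.1]; exact Submodule.neg_mem _ ha.2⟩ }
    have hW : J.lowerCentralSeries (k + 1) ≤ W := by
      rw [Subgroup.lowerCentralSeries_succ, Subgroup.commutator_le]
      intro x hx y hy
      have h1 := (hk x hx).1
      have h2 : ⁅x, y⁆ = (y * x * y⁻¹ * x⁻¹)⁻¹ := by simp only [commutatorElement_def]; group
      rw [h2]
      refine W.inv_mem ⟨B.mul_mem (hB.conj_mem x h1 y) (B.inv_mem h1), ?_⟩
      rw [h _ (hB.conj_mem x h1 y) _ (B.inv_mem h1), he y x h1, add_inv h h1, ← sub_eq_add_neg]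
      exact mem_up_succ.1 (hk x hx).2 y hy
    exact ih (k + 1) fun x hx => hW hx

end Add

/-- the identities pass to quotients -/
lemma adm_surj {G' : Type} [Group G'] {u : ℕ → FF →₀ ℤ} (h : Adm u G) (π : G →* G')
    (hπ : Function.Surjective π) : Adm u G' := by
  intro p hp A _ σ ⟨H, f, h1, h2, h3, h4⟩
  refine sat_of_surj (ρ := (σ.comp π : Representation ℤ G A)) (h p hp A _ ⟨H.comap π, f ∘ π,
    h1.comap π, fun x hx y hy => ?_, fun a => ?_, fun g x hx => ?_⟩) π hπ fun _ => rfl
  · simp only [Function.comp, map_mul]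
    exact h2 _ hx _ hy
  · obtain ⟨x, hx, rfl⟩ := h3 a
    obtain ⟨y, rfl⟩ := hπ x
    exact ⟨y, hx, rfl⟩
  · simp only [Function.comp, map_mul, map_inv]
    exact h4 _ _ hx

lemma tower_quot {h : ℕ} {q : ℕ → ℕ} {L : ℕ → Subgroup G} (hT : Tower (h + 1) q L)
    [(L h).Normal] : Tower h q fun a => (L a).map (QuotientGroup.mk' (L h)) where
  normal a := (hT.normal a).map _ (QuotientGroup.mk'_surjective _)
  anti a := Subgroup.map_mono (hT.anti a)
  bot := by
    rw [Subgroup.map_eq_bot_iff, QuotientGroup.ker_mk']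
  prime := hT.prime
  comm a := by
    rw [← Subgroup.map_commutator]
    exact Subgroup.map_mono (hT.comm a)
  pow a := by
    rintro _ ⟨x, hx, rfl⟩
    exact ⟨x ^ q a, hT.pow a x hx, map_pow _ _ _⟩

lemma main (hF : BFin) (hV : BVn) (hW : STw) (u : ℕ → FF →₀ ℤ)
    (hu : ∀ p : ℕ, p.Prime → Good p (u p)) (h : ℕ) : ∀ (G : Type) [Group G] (q : ℕ → ℕ)
    (L : ℕ → Subgroup G), Group.FG G → Group.IsSolvable G → Adm u G → Tower h q L → CoVN (L 0) →
    ∃ (K₁ : Subgroup G) (c : ℕ), K₁ ≤ L 0 ∧ CoVN K₁ ∧ STc K₁ c := by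
  induction h with
  | zero =>
    intro G _ q L _ _ _ hT hK
    refine ⟨L 0, 0, le_rfl, hK, fun p _ P hP _ _ => ?_⟩
    rw [hT.bot] at hP
    exact eq_bot_iff.2 hP
  | succ h ih =>
    intro G _ q L hG hS hA hT hK
    have hn := hT.normal h
    have hp := hT.prime h
    have hc : Cm (L h) (L h) := fun x hx y hy => by
      have h1 := hT.comm h (Subgroup.commutator_mem_commutator hx hy)
      rw [hT.bot, Subgroup.mem_bot, commutatorElement_eq_one_iff_mul_comm] at h1
      exact h1
    have hpow : ∀ x ∈ L h, x ^ q h = 1 := fun x hx => by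
      have h1 := hT.pow h x hx
      rwa [hT.bot, Subgroup.mem_bot] at h1
    have hπ := QuotientGroup.mk'_surjective (L h)
    have hT' := tower_quot hT
    have hG' := fg_of_surj hG _ hπ
    have hS' := solv_of_surj hS _ hπ
    obtain ⟨X, c, hX, hXv, hXc⟩ := ih (G ⧸ L h) q _ hG' hS' (adm_surj hA _ hπ) hT'
      (hV.map _ _ _ _ hπ hK)
    have hXb : Bdd X := ⟨∏ a ∈ Finset.range h, q a,
      Finset.prod_pos fun a _ => (hT.prime a).pos,
      fun x hx => (hF.towerExp _ h q _ hT').2 x (hX hx)⟩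
    obtain ⟨A, _, ρ, f, h1, h2, h3, h4⟩ := conjRep (L h) hc
    have hO : Ok (q h) (u (q h)) ρ := ⟨hA _ hp A ρ ⟨L h, f, hn, h1, h2, h3⟩, fun a => by
      obtain ⟨x, hx, rfl⟩ := h2 a
      rw [← add_pow h1 hx, hpow x hx, add_one h1]⟩
    obtain ⟨σ, hσ, hσρ⟩ := hO.quot (L h) fun y hy => LinearMap.ext fun a => by
      obtain ⟨x, hx, rfl⟩ := h2 a
      rw [← h3 y x hx, hc y hy x hx, mul_inv_cancel_right, Module.End.one_apply]
    obtain ⟨K', ⟨hK1, hK2⟩, t, ht⟩ := hW (q h) (u (q h)) hp (hu _ hp) c (G ⧸ L h) A σ hG' hS' hσ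
      X hXv hXb hXc
    refine ⟨K'.comap (QuotientGroup.mk' (L h)) ⊓ L 0, c + t, inf_le_right,
      hV.inf _ _ _ (hV.comap _ _ _ _ hK2) hK, fun r hr J hJ hfin hJr => ?_⟩
    have hJ1 : J.map (QuotientGroup.mk' (L h)) ≤ K' :=
      Subgroup.map_le_iff_le_comap.2 (hJ.trans inf_le_left)
    have hfin' : Finite (J.map (QuotientGroup.mk' (L h))) :=
      Finite.of_surjective _ (MonoidHom.subgroupMap_surjective (QuotientGroup.mk' (L h)) J)
    have hJr' := hJr.map (QuotientGroup.mk' (L h))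
    have h5 : J.lowerCentralSeries c ≤ L h := by
      have h6 := hXc r hr _ (hJ1.trans hK1) hfin' hJr'
      rwa [← Subgroup.map_lowerCentralSeries, Subgroup.map_eq_bot_iff, QuotientGroup.ker_mk'] at h6
    by_cases hrp : r = q h
    · subst hrp
      have h6 : Nil ρ J t := Nil.of_map (QuotientGroup.mk' (L h)) hσρ (ht _ hJ1 ⟨hfin', hJr'⟩)
      exact lcs_bot h1 h3 h4 J t c fun x hx => ⟨h5 hx, h6 _⟩
    · refine eq_bot_iff.2 ((J.lowerCentralSeries_antitone (Nat.le_add_right c t)).trans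
        fun x hx => Subgroup.mem_bot.2 ?_)
      obtain ⟨e, he⟩ := hJr ⟨x, lcs_le J c hx⟩
      exact eq_one_of_coprime (((Nat.coprime_primes hr hp).2 hrp).pow_left e)
        (congrArg Subtype.val he) (hpow x (h5 hx))

end StOut

theorem out : BFin → BVn → STw → SSt := by
  intro hF hV hW u hu G _ hG hS hA K hK hb
  obtain ⟨h, q, L, hT, rfl⟩ := hF.tower G K hS hK.1 hb
  exact StOut.main hF hV hW u hu h G q L hG hS hA hT hK

end Pool.Agent.MP_5c28a4_al.H89S.StA
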