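import Pool.Agent.MP_5c28a4_al.H68S.Spec

/-!
Section S2: making a product of different augmentation ideals uniform.
-/

set_option autoImplicit false

namespace Pool.Agent.MP_5c28a4_al.H89S.StrA

open scoped commutatorElement
open StA

namespace StrUni

/-- the combinatorial lemma -/
lemma comb {R ι : Type} [CommRing R] [Fintype ι] {T : ℕ} (hT : Fintype.card ι < T)
    (J : ι → Fin T → Ideal R) (Ann : Ideal R) (h : ∀ t, ∏ k, J k t ≤ Ann) :
    ∏ p : {p : ι × Fin T × Fin T // p.2.2 < p.2.1}, (J p.1.1 p.1.2.1 ⊔ J p.1.1 p.1.2.2) ≤ Ann := by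
  classical
  have e : ∀ p : {p : ι × Fin T × Fin T // p.2.2 < p.2.1}, J p.1.1 p.1.2.1 ⊔ J p.1.1 p.1.2.2 =
      ∑ b ∈ (Finset.univ : Finset Bool), J p.1.1 (if b then p.1.2.1 else p.1.2.2) := fun p => by
    simp
  rw [Finset.prod_congr rfl fun p _ => e p, Finset.prod_univ_sum]
  refine Finset.sum_induction _ (· ≤ Ann) (fun a b ha hb => sup_le ha hb) bot_le fun ch _ => ?_
  obtain ⟨t, ht⟩ : ∃ t, ∀ k, ∃ p : {p : ι × Fin T × Fin T // p.2.2 < p.2.1}, p.1.1 = k ∧
      (if ch p then p.1.2.1 else p.1.2.2) = t := by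
    by_contra hc
    push Not at hc
    choose f hf using hc
    have key : ∀ a b : Fin T, b < a → f a ≠ f b := fun a b hab hf' => by
      have h1 := hf a ⟨(f a, a, b), hab⟩ rfl
      have h2 := hf b ⟨(f a, a, b), hab⟩ hf'
      split_ifs at h1 h2
      · exact h1 rfl
      · exact h2 rfl
    obtain ⟨a, b, hab, h1⟩ := Fintype.exists_ne_map_eq_of_card_lt f (by simpa using hT)
    rcases lt_or_gt_of_ne hab with h2 | h2
    · exact key b a h2 h1.symm
    · exact key a b h2 h1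
  choose q h1 h2 using ht
  have hq : Function.Injective q := fun a b hab => by rw [← h1 a, hab, h1]
  refine le_trans (Ideal.le_of_dvd ?_) (h t)
  refine dvd_trans (dvd_of_eq ?_)
    (Finset.prod_dvd_prod_of_subset (Finset.univ.map ⟨q, hq⟩) _ _ (Finset.subset_univ _))
  rw [Finset.prod_map]
  exact Finset.prod_congr rfl fun k _ => by
    simp only [Function.Embedding.coeFn_mk, h1, h2]

lemma conj_pow {Q : Type} [Group Q] (β δ : Q) (h : Commute ⁅β, δ⁆ δ) (t : ℕ) :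
    δ ^ t * β * (δ ^ t)⁻¹ = (⁅β, δ⁆ ^ t)⁻¹ * β := by
  induction t with
  | zero => simp
  | succ t ih =>
    have h1 : δ * (⁅β, δ⁆ ^ t)⁻¹ = (⁅β, δ⁆ ^ t)⁻¹ * δ := (h.pow_left t).inv_left.symm.eq
    calc δ ^ (t + 1) * β * (δ ^ (t + 1))⁻¹ = δ * (δ ^ t * β * (δ ^ t)⁻¹) * δ⁻¹ := by group
      _ = (⁅β, δ⁆ ^ t)⁻¹ * (δ * β * δ⁻¹) := by rw [ih, ← mul_assoc δ, h1]; group
      _ = (⁅β, δ⁆ ^ (t + 1))⁻¹ * β := by
        rw [pow_succ', mul_inv_rev, mul_assoc, commutatorElement_inv, commutatorElement_def δ β]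
        group

variable {N R : Type} [Group N] [CommRing R]

/-- a multiplicative map on an abelian normal subgroup, with conjugation -/
structure Dat (B₀ : Subgroup N) (e : N → R) (c : N → R →+* R) (Ann : Ideal R) : Prop where
  mul : ∀ x ∈ B₀, ∀ y ∈ B₀, e (x * y) = e x * e y
  one : e 1 = 1
  conj : ∀ g, ∀ x ∈ B₀, c g (e x) = e (g * x * g⁻¹)
  ann : ∀ g, ∀ r ∈ Ann, c g r ∈ Ann

variable {B₀ : Subgroup N} {e : N → R} {c : N → R →+* R} {Ann : Ideal R}

/-- the elements that are trivial modulo an ideal -/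
def Dat.sub (h : Dat B₀ e c Ann) (I : Ideal R) : Subgroup N where
  carrier := {x | x ∈ B₀ ∧ e x - 1 ∈ I}
  one_mem' := ⟨B₀.one_mem, by rw [h.one, sub_self]; exact I.zero_mem⟩
  mul_mem' := fun {x y} hx hy => ⟨B₀.mul_mem hx.1 hy.1, by
    rw [h.mul x hx.1 y hy.1, show e x * e y - 1 = e x * (e y - 1) + (e x - 1) by ring]
    exact I.add_mem (I.mul_mem_left _ hy.2) hx.2⟩
  inv_mem' := fun {x} hx => ⟨B₀.inv_mem hx.1, by
    have h1 := h.mul x⁻¹ (B₀.inv_mem hx.1) x hx.1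
    rw [inv_mul_cancel, h.one] at h1
    rw [show e x⁻¹ - 1 = -e x⁻¹ * (e x - 1) by linear_combination -h1]
    exact I.mul_mem_left _ hx.2⟩

lemma Dat.mem_sub (h : Dat B₀ e c Ann) {I : Ideal R} {x : N} :
    x ∈ h.sub I ↔ x ∈ B₀ ∧ e x - 1 ∈ I := Iff.rfl

lemma main (h : Dat B₀ e c Ann) (D : Subgroup N) [D.Normal] (v : ℕ) :
    ∀ B : Subgroup N, B.Normal → Cm B B → B ≤ B₀ → itc B D (v + 1) = ⊥ →
    ∀ (ι : Type) [Fintype ι] (I : ι → Ideal R) (Wb : Set N), Wb ⊆ B →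
    (∀ i, ∀ w ∈ Wb, ∃ b ∈ ⁅B, D⁆, e (w * b) - 1 ∈ I i) → ∏ i, I i ≤ Ann →
    ∀ ds : List N, ds.length = v → (∀ d ∈ ds, d ∈ D) →
      ∃ M : ℕ, 0 < M ∧ ∃ (κ : Type) (_ : Fintype κ) (J : κ → Ideal R), ∏ i, J i ≤ Ann ∧
        ∀ i, ∀ w ∈ Wb, e (icm w ds ^ M) - 1 ∈ J i := by
  induction v with
  | zero =>
    intro B _ _ _ h0 ι _ I Wb _ h1 h2 ds hl _
    obtain rfl := List.length_eq_zero_iff.1 hl
    refine ⟨1, one_pos, ι, inferInstance, I, h2, fun i w hw => ?_⟩
    obtain ⟨b, hb, h3⟩ := h1 i w hw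
    have h4 : b ∈ (⊥ : Subgroup N) := h0 ▸ hb
    rwa [Subgroup.mem_bot.1 h4, mul_one, ← pow_one w] at h3
  | succ v ih =>
    intro B hB hc hB₀ h0 ι _ I Wb hW h1 h2 ds hl hD
    obtain _ | ⟨d, ds⟩ := ds
    · simp at hl
    have hd : d ∈ D := hD d (by simp)
    have hle : ⁅B, D⁆ ≤ B := Subgroup.commutator_le_left _ _
    obtain ⟨M, hM, κ, _, J, h3, h4⟩ := ih ⁅B, D⁆ inferInstance (cm_mono hc hle hle)
      (hle.trans hB₀) (by rw [itc_succ', h0])
      {p : ι × Fin (Fintype.card ι + 1) × Fin (Fintype.card ι + 1) // p.2.2 < p.2.1}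
      (fun p => (I p.1.1).map (c (d ^ (p.1.2.1 : ℕ))) ⊔ (I p.1.1).map (c (d ^ (p.1.2.2 : ℕ))))
      {x | ∃ w ∈ Wb, x = ⁅w, d⁆ ^ (Fintype.card ι + 1).factorial}
      (by
        rintro _ ⟨w, hw, rfl⟩
        exact Subgroup.pow_mem _ (Subgroup.commutator_mem_commutator (hW hw) hd) _)
      (by
        rintro ⟨⟨k, t, t'⟩, ht⟩ _ ⟨w, hw, rfl⟩
        obtain ⟨b, hb, h3⟩ := h1 k w hw
        have hwb : w * b ∈ B := B.mul_mem (hW hw) (hle hb)
        have ht' : (t' : ℕ) < t := ht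
        obtain ⟨n, hn⟩ : (t : ℕ) - t' ∣ (Fintype.card ι + 1).factorial :=
          Nat.dvd_factorial (by omega) (by omega)
        have key : ∀ s : ℕ, e (d ^ s * (w * b) * (d ^ s)⁻¹) - 1 ∈ (I k).map (c (d ^ s)) :=
          fun s => by
            have := Ideal.mem_map_of_mem (c (d ^ s)) h3
            rwa [map_sub, map_one, h.conj _ _ (hB₀ hwb)] at this
        have h5 : (d ^ (t' : ℕ) * (w * b) * (d ^ (t' : ℕ))⁻¹ *
            (d ^ (t : ℕ) * (w * b) * (d ^ (t : ℕ))⁻¹)⁻¹) ^ n ∈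
            h.sub ((I k).map (c (d ^ (t : ℕ))) ⊔ (I k).map (c (d ^ (t' : ℕ)))) :=
          Subgroup.pow_mem _ (Subgroup.mul_mem _
            (h.mem_sub.2 ⟨hB₀ (hB.conj_mem _ hwb _), Ideal.mem_sup_right (key t')⟩)
            (Subgroup.inv_mem _
              (h.mem_sub.2 ⟨hB₀ (hB.conj_mem _ hwb _), Ideal.mem_sup_left (key t)⟩))) n
        refine ⟨(⁅w, d⁆ ^ (Fintype.card ι + 1).factorial)⁻¹ * _, ?_, by
          rw [mul_inv_cancel_left]; exact h5.2⟩
        have hz : ∀ x ∈ ⁅B, D⁆, ⁅QuotientGroup.mk' ⁅⁅B, D⁆, D⁆ x, QuotientGroup.mk' _ d⁆ = 1 :=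
          fun x hx => by
            rw [← map_commutatorElement]
            exact (QuotientGroup.eq_one_iff _).2 (Subgroup.commutator_mem_commutator hx hd)
        have h6 : ⁅QuotientGroup.mk' ⁅⁅B, D⁆, D⁆ (w * b), QuotientGroup.mk' _ d⁆ =
            QuotientGroup.mk' ⁅⁅B, D⁆, D⁆ ⁅w, d⁆ := by
          rw [← map_commutatorElement, cm_mul hc (hW hw) (hle hb), map_mul,
            map_commutatorElement _ b, hz b hb, mul_one]
        have h7 := conj_pow (QuotientGroup.mk' ⁅⁅B, D⁆, D⁆ (w * b)) (QuotientGroup.mk' _ d) (by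
          rw [h6]
          exact commutatorElement_eq_one_iff_commute.1
            (hz _ (Subgroup.commutator_mem_commutator (hW hw) hd)))
        rw [← QuotientGroup.eq_one_iff, ← QuotientGroup.mk'_apply]
        simp only [map_mul _ (_ * _), map_mul _ (_ ^ _), map_mul _ (_ ⁻¹), map_inv, map_pow, h7, h6]
        rw [hn, pow_mul, inv_mul_eq_one]
        congr 1
        rw [pow_sub _ ht'.le]
        group)
      (comb (Nat.lt_succ_self _) (fun k t => (I k).map (c (d ^ (t : ℕ)))) Ann fun t => by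
        have := map_prod (Ideal.mapHom (c (d ^ (t : ℕ)))) I Finset.univ
        simp only [Ideal.mapHom_apply] at this
        rw [← this, Ideal.map_le_iff_le_comap]
        exact fun r hr => h.ann _ r (h2 hr))
      ds (by simpa using hl) fun x hx => hD x (by simp [hx])
    refine ⟨(Fintype.card ι + 1).factorial * M, Nat.mul_pos (Nat.factorial_pos _) hM, κ, _, J, h3,
      fun i w hw => ?_⟩
    rw [icm_cons, pow_mul, ← icm_pow hc (comm_mem_left (hW hw) d)]
    exact h4 i _ ⟨w, hw, rfl⟩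

/-- the group ring of an abelian normal subgroup -/
lemma exists_dat {A : Type} [AddCommGroup A] (ρ : Representation ℤ N A) (m : ℤ) (B : Subgroup N)
    [hB : B.Normal] (hc : Cm B B) : ∃ (R : Type) (_ : CommRing R) (e : N → R) (c : N → R →+* R)
      (Ann : Ideal R) (φ : R →+* Module.End ℤ A), Dat B e c Ann ∧ (∀ x ∈ B, φ (e x) = ρ x) ∧
      ∀ r, r ∈ Ann ↔ m • φ r = 0 := by
  classical
  let : CommGroup B :=
    { (inferInstance : Group B) with mul_comm := fun a b => Subtype.ext (hc a a.2 b b.2) }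
  let φ : MonoidAlgebra ℤ B →+* Module.End ℤ A :=
    (MonoidAlgebra.lift ℤ (Module.End ℤ A) B (ρ.comp B.subtype)).toRingHom
  have hφ : ∀ x : B, φ (MonoidAlgebra.of ℤ B x) = ρ x := fun x => MonoidAlgebra.lift_of _ x
  let c : N → MonoidAlgebra ℤ B →+* MonoidAlgebra ℤ B := fun g =>
    MonoidAlgebra.mapDomainRingHom ℤ (MulAut.conjNormal (H := B) g).toMonoidHom
  have hcx : ∀ g (x : B), c g (MonoidAlgebra.of ℤ B x) =
      MonoidAlgebra.of ℤ B ⟨g * x * g⁻¹, hB.conj_mem _ x.2 g⟩ := fun g x =>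
    MonoidAlgebra.mapDomain_single
  have hcφ : ∀ g r, φ (c g r) = ρ g * φ r * ρ g⁻¹ := fun g r => by
    induction r using MonoidAlgebra.induction_on with
    | of x => rw [hcx, hφ, hφ, map_mul, map_mul]
    | add x y hx hy => rw [map_add, map_add, map_add, hx, hy, mul_add, add_mul]
    | smul n x hx => rw [map_zsmul, map_zsmul, map_zsmul, hx, mul_smul_comm, smul_mul_assoc]
  refine ⟨MonoidAlgebra ℤ B, inferInstance,
    fun x => if h : x ∈ B then MonoidAlgebra.of ℤ B ⟨x, h⟩ else 1, c,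
    { carrier := {r | m • φ r = 0}
      add_mem' := fun {a b} (ha : _ = _) (hb : _ = _) => by
        change _ = _
        rw [map_add, smul_add, ha, hb, add_zero]
      zero_mem' := by
        change _ = _
        rw [map_zero, smul_zero]
      smul_mem' := fun r a (ha : _ = _) => by
        change _ = _
        rw [smul_eq_mul, map_mul, ← mul_smul_comm, ha, mul_zero] }, φ,
    ⟨fun x hx y hy => ?_, ?_, fun g x hx => ?_, fun g r (hr : _ = _) => ?_⟩, fun x hx => ?_,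
    fun _ => Iff.rfl⟩
  · simp only [dif_pos hx, dif_pos hy, dif_pos (B.mul_mem hx hy), ← map_mul]
    rfl
  · simp only [dif_pos B.one_mem]
    exact map_one _
  · simp only [dif_pos hx, dif_pos (hB.conj_mem x hx g), hcx]
  · change _ = _
    rw [hcφ, ← smul_mul_assoc, ← mul_smul_comm, hr, mul_zero, zero_mul]
  · simp only [dif_pos hx, hφ]

end StrUni

open StrUni in
theorem uni : SUni := by
  intro N A _ _ ρ m D hD v B hB hc h0 Ws Wb hW h1 h2 ds hl hd
  obtain ⟨R, _, e, c, Ann, φ, h, hφ, hA⟩ := exists_dat ρ m B hc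
  have hp : ∀ (n : ℕ) (x : Fin n → N), (∀ i, x i ∈ B) →
      φ (∏ i, (e (x i) - 1)) = ((List.ofFn x).map fun y => ρ y - 1).prod := fun n x hx => by
    rw [← List.prod_ofFn, map_list_prod, List.map_ofFn, List.map_ofFn]
    congr 2
    funext i
    simp [hφ _ (hx i)]
  obtain ⟨M, hM, κ, _, J, h3, h4⟩ := main h D v B hB hc le_rfl h0 (Fin Ws.length)
    (fun i => Ideal.span {r | ∃ x ∈ Ws.get i, r = e x - 1}) Wb hW
    (fun i w hw => by
      obtain ⟨y, hy, z, hz, rfl⟩ := Subgroup.mem_sup_of_normal_right.1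
        ((h1 _ (List.get_mem Ws i)).2 hw)
      exact ⟨z⁻¹, inv_mem hz, Ideal.subset_span ⟨y, hy, by rw [mul_inv_cancel_right]⟩⟩)
    (by
      rw [Ideal.prod_span, Ideal.span_le]
      intro r hr
      obtain ⟨g, hg, rfl⟩ := (Set.mem_fintype_prod _ _).1 hr
      choose x hx hx' using hg
      refine (hA _).2 ?_
      rw [funext hx', hp _ x fun i => (h1 _ (List.get_mem Ws i)).1 (hx i)]
      exact h2 _ (List.forall₂_iff_get.2 ⟨by simp, fun i _ hi => by simpa using hx ⟨i, hi⟩⟩))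
    ds hl hd
  refine ⟨M, Fintype.card κ, hM, up_of_kill fun l hl' hS => ?_⟩
  have hB' : ∀ i, l.get i ∈ B := fun i => by
    obtain ⟨w, hw, h5⟩ := hS _ (List.get_mem l i)
    rw [h5]
    exact B.pow_mem (icm_mem (hW hw) ds) M
  rw [← List.ofFn_get l, ← hp _ _ hB', ← hA]
  refine h3 ?_
  rw [← (Fintype.equivFinOfCardEq hl'.symm).symm.prod_comp]
  refine Ideal.prod_mem_prod fun i _ => ?_
  obtain ⟨w, hw, h5⟩ := hS _ (List.get_mem l i)
  rw [h5]
  exact h4 _ w hw

end Pool.Agent.MP_5c28a4_al.H89S.StrA
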